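import Mathlib
import Pool.Agent.Helper98.BH.Defs

/-! # MP_59646b_lc, BH-3b : a marker set from a function which is not dominated -/

namespace Pool.Agent.BH

open MeasureTheory

/-- the growth function -/
def blkM (m : Bai) (n : ℕ) : ℕ := n + 1 + ∑ i ∈ Finset.range (n + 1), m i

lemma lt_blkM (m : Bai) (n : ℕ) : n < blkM m n := by
  unfold blkM; omega

lemma le_blkM (m : Bai) (n : ℕ) : m n ≤ blkM m n := by
  unfold blkM
  have : m n ≤ ∑ i ∈ Finset.range (n + 1), m i :=
    Finset.single_le_sum (f := fun i => m i) (fun i _ => Nat.zero_le _) (by simp)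
  omega

lemma blkM_strictMono (m : Bai) : StrictMono (blkM m) := by
  refine strictMono_nat_of_lt_succ fun n => ?_
  unfold blkM
  rw [Finset.sum_range_succ _ (n + 1)]
  omega

/-- the points of the partition -/
def blkP (m : Bai) : ℕ → ℕ
  | 0 => 0
  | i + 1 => blkM m (blkP m i)

lemma blkP_strictMono (m : Bai) : StrictMono (blkP m) :=
  strictMono_nat_of_lt_succ fun _ => lt_blkM m _

/-- the index of the block of `k` -/
def blkI (m : Bai) (k : ℕ) : ℕ := Nat.findGreatest (fun i => blkP m i ≤ k) k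

lemma blkP_blkI_le (m : Bai) (k : ℕ) : blkP m (blkI m k) ≤ k :=
  Nat.findGreatest_spec (P := fun i => blkP m i ≤ k) (Nat.zero_le k) (Nat.zero_le k)

lemma lt_blkP_blkI (m : Bai) (k : ℕ) : k < blkP m (blkI m k + 1) := by
  by_contra h
  push Not at h
  have h1 : blkI m k + 1 ≤ k := ((blkP_strictMono m).id_le _).trans h
  have := Nat.le_findGreatest (P := fun i => blkP m i ≤ k) h1 h
  change blkI m k + 1 ≤ blkI m k at this
  omega

lemma le_blkI {m : Bai} {k i : ℕ} (h : blkP m i ≤ k) : i ≤ blkI m k :=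
  Nat.le_findGreatest (P := fun i => blkP m i ≤ k) (((blkP_strictMono m).id_le _).trans h) h

lemma blkI_mono (m : Bai) : Monotone (blkI m) := fun _ _ h =>
  le_blkI ((blkP_blkI_le m _).trans h)

lemma blkI_step (m : Bai) {k l : ℕ} (h : l ≤ blkM m k) : blkI m l ≤ blkI m k + 1 := by
  have h1 : blkM m k < blkM m (blkP m (blkI m k + 1)) := blkM_strictMono m (lt_blkP_blkI m k)
  have h2 : blkP m (blkI m l) < blkP m (blkI m k + 2) :=
    lt_of_le_of_lt ((blkP_blkI_le m l).trans h) h1
  have := (blkP_strictMono m).lt_iff_lt.1 h2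
  omega

/-- the two block maps -/
def blk (e : ℕ) (m : Bai) (k : ℕ) : ℕ := (blkI m k + e) / 2

lemma blk_mono (e : ℕ) (m : Bai) : Monotone (blk e m) := fun a b h => by
  have := blkI_mono m h
  unfold blk
  omega

lemma blk_agree (m : Bai) {k l : ℕ} (h0 : k ≤ l) (h : l ≤ blkM m k) :
    blk 0 m k = blk 0 m l ∨ blk 1 m k = blk 1 m l := by
  have h1 := blkI_step m h
  have h2 := blkI_mono m h0
  unfold blk
  omega

lemma blk_unbounded (e : ℕ) (m : Bai) (N : ℕ) : ∃ k, N < blk e m k := by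
  refine ⟨blkP m (2 * N + 2), ?_⟩
  have := le_blkI (le_refl (blkP m (2 * N + 2)))
  unfold blk
  omega

/-! ### measurability -/

lemma measurable_blkM (n : ℕ) : Measurable fun m : Bai => blkM m n := by
  unfold blkM
  exact measurable_const.add (Finset.measurable_sum _ fun i _ => measurable_pi_apply i)

lemma measurable_blkP (i : ℕ) : Measurable fun m : Bai => blkP m i := by
  induction i with
  | zero => exact measurable_const
  | succ i ih =>
    have h : Measurable fun q : Bai × ℕ => blkM q.1 q.2 :=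
      measurable_from_prod_countable_left fun n => measurable_blkM n
    exact h.comp (measurable_id.prodMk ih)

lemma measurable_blkI (k : ℕ) : Measurable fun m : Bai => blkI m k := by
  refine measurable_findGreatest fun i _ => ?_
  exact measurableSet_le (measurable_blkP i) measurable_const

lemma measurable_blk (e j : ℕ) : Measurable fun q : Bai × Inc => blk e q.1 (q.2.1 j) := by
  have h : Measurable fun q : Bai × ℕ => blk e q.1 q.2 :=
    measurable_from_prod_countable_left fun n =>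
      (measurable_from_top (f := fun i : ℕ => (i + e) / 2)).comp (measurable_blkI n)
  exact h.comp (measurable_fst.prodMk
    ((measurable_pi_apply j).comp (measurable_subtype_coe.comp measurable_snd)))

lemma shift_iter_apply (x : Inc) (k n : ℕ) : (shift^[k] x).1 n = x.1 (n + k) := by
  induction k generalizing x with
  | zero => rfl
  | succ k ih =>
    rw [Function.iterate_succ_apply, ih, shift_apply]
    rfl

/-- infinitely many agreements of consecutive elements in the first block map -/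
def blkE : Set (Bai × Inc) :=
  {q | ∀ n, ∃ j ≥ n, blk 0 q.1 (q.2.1 j) = blk 0 q.1 (q.2.1 (j + 1))}

lemma measurableSet_agree (e j : ℕ) :
    MeasurableSet {q : Bai × Inc | blk e q.1 (q.2.1 j) = blk e q.1 (q.2.1 (j + 1))} :=
  measurableSet_eq_fun (measurable_blk e j) (measurable_blk e (j + 1))

lemma measurableSet_blkE : MeasurableSet blkE := by
  have : blkE = ⋂ n, ⋃ j, {q : Bai × Inc | j ≥ n ∧
      blk 0 q.1 (q.2.1 j) = blk 0 q.1 (q.2.1 (j + 1))} := by
    ext q; simp [blkE]
  rw [this]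
  refine MeasurableSet.iInter fun n => MeasurableSet.iUnion fun j => ?_
  by_cases h : j ≥ n
  · simpa [h] using measurableSet_agree 0 j
  · simp [h]

lemma mem_blkE_shift (m : Bai) (x : Inc) (k : ℕ) : (m, shift^[k] x) ∈ blkE ↔ (m, x) ∈ blkE := by
  simp only [blkE, Set.mem_ofPred_eq, shift_iter_apply]
  constructor
  · intro h n
    obtain ⟨j, hj, hj2⟩ := h n
    refine ⟨j + k, by omega, ?_⟩
    rw [hj2, show j + 1 + k = j + k + 1 by omega]
  · intro h n
    obtain ⟨j, hj, hj2⟩ := h (n + k)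
    refine ⟨j - k, by omega, ?_⟩
    rw [show j - k + 1 + k = j + 1 by omega, show j - k + k = j by omega, hj2]

lemma blk_changes (e : ℕ) (m : Bai) (x : Inc) (n : ℕ) :
    ∃ k ≥ n, blk e m (x.1 k) ≠ blk e m (x.1 (k + 1)) := by
  by_contra h
  push Not at h
  have h1 : ∀ k, blk e m (x.1 (n + k)) = blk e m (x.1 n) := by
    intro k
    induction k with
    | zero => rfl
    | succ k ih => rw [← ih]; exact (h (n + k) (by omega)).symm
  obtain ⟨k, hk⟩ := blk_unbounded e m (blk e m (x.1 n))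
  have h2 : k ≤ x.1 (n + k) := le_trans (Nat.le_add_left k n) (x.2.id_le (n + k))
  have := blk_mono e m h2
  rw [h1] at this
  omega

lemma agree_infinitely (m : Bai) (x : Inc) (hx : ¬ Dom x m) (n : ℕ) :
    ∃ j ≥ n, x.1 (j + 1) ≤ blkM m (x.1 j) := by
  by_contra h
  push Not at h
  refine hx ⟨n + 1, fun i => ?_⟩
  have h1 : i ≤ x.1 (i + n) := le_trans (Nat.le_add_right i n) (x.2.id_le (i + n))
  have h2 := h (i + n) (by omega)
  have h3 := (blkM_strictMono m).monotone h1
  have h4 := le_blkM m i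
  have h5 : x.1 (i + (n + 1)) = x.1 (i + n + 1) := rfl
  omega

theorem exists_blocks : ∃ A : Set (Bai × Inc), MeasurableSet A ∧ ∀ m x, ¬ Dom x m →
    (∀ n, ∃ k ≥ n, (m, shift^[k] x) ∈ A) ∧ (∀ n, ∃ k ≥ n, (m, shift^[k] x) ∉ A) := by
  set A0 : Set (Bai × Inc) := {q | blk 0 q.1 (q.2.1 0) = blk 0 q.1 (q.2.1 (0 + 1))} with hA0
  set A1 : Set (Bai × Inc) := {q | blk 1 q.1 (q.2.1 0) = blk 1 q.1 (q.2.1 (0 + 1))} with hA1
  refine ⟨(blkE ∩ A0) ∪ (blkEᶜ ∩ A1), (measurableSet_blkE.inter (measurableSet_agree 0 0)).union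
    (measurableSet_blkE.compl.inter (measurableSet_agree 1 0)), fun m x hx => ?_⟩
  have s0 : ∀ k, (m, shift^[k] x) ∈ A0 ↔ blk 0 m (x.1 k) = blk 0 m (x.1 (k + 1)) := by
    intro k
    simp only [hA0, Set.mem_ofPred_eq, shift_iter_apply, Nat.zero_add, Nat.add_comm 1 k]
  have s1 : ∀ k, (m, shift^[k] x) ∈ A1 ↔ blk 1 m (x.1 k) = blk 1 m (x.1 (k + 1)) := by
    intro k
    simp only [hA1, Set.mem_ofPred_eq, shift_iter_apply, Nat.zero_add, Nat.add_comm 1 k]
  by_cases hE : (m, x) ∈ blkE
  · have key : ∀ k, (m, shift^[k] x) ∈ (blkE ∩ A0) ∪ (blkEᶜ ∩ A1) ↔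
        blk 0 m (x.1 k) = blk 0 m (x.1 (k + 1)) := by
      intro k
      rw [← s0 k]
      have := (mem_blkE_shift m x k).2 hE
      simp [this]
    refine ⟨fun n => ?_, fun n => ?_⟩
    · obtain ⟨j, hj, hj2⟩ := hE n
      exact ⟨j, hj, (key j).2 hj2⟩
    · obtain ⟨j, hj, hj2⟩ := blk_changes 0 m x n
      exact ⟨j, hj, fun h => hj2 ((key j).1 h)⟩
  · have key : ∀ k, (m, shift^[k] x) ∈ (blkE ∩ A0) ∪ (blkEᶜ ∩ A1) ↔
        blk 1 m (x.1 k) = blk 1 m (x.1 (k + 1)) := by
      intro k
      rw [← s1 k]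
      have : (m, shift^[k] x) ∉ blkE := fun h => hE ((mem_blkE_shift m x k).1 h)
      simp [this]
    refine ⟨fun n => ?_, fun n => ?_⟩
    · have hE' : ∃ n0, ∀ j ≥ n0, blk 0 m (x.1 j) ≠ blk 0 m (x.1 (j + 1)) := by
        by_contra h
        push Not at h
        exact hE h
      obtain ⟨n0, hn0⟩ := hE'
      obtain ⟨j, hj, hj2⟩ := agree_infinitely m x hx (max n n0)
      refine ⟨j, le_trans (le_max_left _ _) hj, (key j).2 ?_⟩
      rcases blk_agree m (x.2.monotone (Nat.le_succ j)) hj2 with h | h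
      · exact absurd h (hn0 j (le_trans (le_max_right _ _) hj))
      · exact h
    · obtain ⟨j, hj, hj2⟩ := blk_changes 1 m x n
      exact ⟨j, hj, fun h => hj2 ((key j).1 h)⟩

end Pool.Agent.BH
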