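import Mathlib
import Pool.Agent.Helper98.BH.Defs

/-! # MP_59646b_lc, BH-3a : Borel 3-colouring from a recurrent and co-recurrent set -/

namespace Pool.Agent.BH

open MeasureTheory

theorem col_of_marks {V : Type} [MeasurableSpace V] (S : V → V) (hS : Measurable S) (A : Set V)
    (hA : MeasurableSet A) : ∃ col : V → Fin 3, Measurable col ∧
      ∀ v, (∀ n, ∃ k ≥ n, S^[k] v ∈ A) → (∀ n, ∃ k ≥ n, S^[k] v ∉ A) → col v ≠ col (S v) := by
  classical
  set T : Set V := {v | v ∉ A ∧ S v ∈ A} with hT
  have hTm : MeasurableSet T := hA.compl.inter (hS hA)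
  have hit : ∀ n, MeasurableSet {v | S^[n] v ∈ T} := fun n => (hS.iterate n) hTm
  set E : Set V := {v | ∃ n, Even n ∧ S^[n] v ∈ T ∧ ∀ m, m < n → S^[m] v ∉ T} with hE
  have hEm : MeasurableSet E := by
    have : E = ⋃ n, ({v | Even n ∧ S^[n] v ∈ T} ∩ ⋂ m, {v | m < n → S^[m] v ∉ T}) := by
      ext v; simp [hE, and_assoc]
    rw [this]
    refine MeasurableSet.iUnion fun n => ?_
    refine MeasurableSet.inter ?_ (MeasurableSet.iInter fun m => ?_)
    · by_cases h : Even n
      · simpa [h] using hit n
      · simp [h]
    · by_cases h : m < n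
      · have h3 : {v | m < n → S^[m] v ∉ T} = {v | S^[m] v ∈ T}ᶜ := by
          ext v; simp [h]
        rw [h3]
        exact (hit m).compl
      · simp [h]
  refine ⟨fun v => if v ∈ T then 2 else if v ∈ E then 0 else 1, ?_, ?_⟩
  · exact Measurable.ite hTm measurable_const (Measurable.ite hEm measurable_const measurable_const)
  · intro v h1 h2
    obtain ⟨n, hn, hmin⟩ : ∃ n, S^[n] v ∈ T ∧ ∀ m, m < n → S^[m] v ∉ T := by
      have hex : ∃ n, S^[n] v ∈ T := by
        obtain ⟨k1, -, hk1⟩ := h2 0
        obtain ⟨k2, hk2, hk2'⟩ := h1 k1
        have hne : ∃ k, S^[k1 + k] v ∈ A := ⟨k2 - k1, by rwa [Nat.add_sub_cancel' hk2]⟩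
        have hf := Nat.find_spec hne
        have hpos : Nat.find hne ≠ 0 := by
          intro h0
          rw [h0] at hf
          exact hk1 hf
        obtain ⟨j, hj⟩ := Nat.exists_eq_succ_of_ne_zero hpos
        refine ⟨k1 + j, ?_, ?_⟩
        · exact Nat.find_min hne (by omega : j < Nat.find hne)
        · rw [← Function.iterate_succ_apply' S, show (k1 + j).succ = k1 + Nat.find hne by omega]
          exact hf
      exact ⟨Nat.find hex, Nat.find_spec hex, fun m hm => Nat.find_min hex hm⟩
    by_cases hv : v ∈ T
    · have hSv : S v ∉ T := fun h => h.1 hv.2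
      simp only [hv, hSv, if_true, if_false]
      split_ifs <;> decide
    · by_cases hSv : S v ∈ T
      · simp only [hv, hSv, if_true, if_false]
        split_ifs <;> decide
      · have hn0 : n ≠ 0 := by
          rintro rfl
          exact hv hn
        obtain ⟨j, rfl⟩ := Nat.exists_eq_succ_of_ne_zero hn0
        have hj : S^[j] (S v) ∈ T := by rwa [← Function.iterate_succ_apply]
        have hjm : ∀ m, m < j → S^[m] (S v) ∉ T := by
          intro m hm
          rw [← Function.iterate_succ_apply]
          exact hmin _ (by omega)
        have hEv : v ∈ E ↔ Even (j + 1) := by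
          constructor
          · rintro ⟨n', hn', hn'T, hn'm⟩
            rcases lt_trichotomy n' (j + 1) with h | h | h
            · exact absurd hn'T (hmin _ h)
            · rwa [← h]
            · exact absurd hn (hn'm _ h)
          · intro h
            exact ⟨j + 1, h, hn, hmin⟩
        have hESv : S v ∈ E ↔ Even j := by
          constructor
          · rintro ⟨n', hn', hn'T, hn'm⟩
            rcases lt_trichotomy n' j with h | h | h
            · exact absurd hn'T (hjm _ h)
            · rwa [← h]
            · exact absurd hj (hn'm _ h)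
          · intro h
            exact ⟨j, h, hj, hjm⟩
        simp only [hv, hSv, if_false]
        by_cases hje : Even j
        · have : v ∉ E := by
            rw [hEv, Nat.even_add_one]
            exact fun h => h hje
          rw [if_neg this, if_pos (hESv.2 hje)]
          decide
        · have h1' : v ∈ E := by
            rw [hEv, Nat.even_add_one]
            exact hje
          have h2' : S v ∉ E := fun h => hje (hESv.1 h)
          rw [if_pos h1', if_neg h2']
          decide

end Pool.Agent.BH
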